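import Mathlib

namespace Pool.Agent.Results.MP_bc764a_al.Suff

open Set Pointwise

variable {G : Type} [Group G]

/-- the subgroup generated by the `r i`, `i ∈ S` -/
def Γ (r : ℕ → G) (S : Set ℕ) : Subgroup G := Subgroup.closure (r '' S)

/-- `G` with generators `r 0, …, r (n - 1)` is a string C-group -/
def StringC (r : ℕ → G) (n : ℕ) : Prop :=
  Γ r (Ico 0 n) = ⊤ ∧ (∀ i < n, r i ≠ 1 ∧ r i ^ 2 = 1) ∧
    (∀ i j, i + 2 ≤ j → j < n → (r i * r j) ^ 2 = 1) ∧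
    ∀ I ⊆ Ico 0 n, ∀ J ⊆ Ico 0 n, Γ r I ⊓ Γ r J = Γ r (I ∩ J)

/-- the conjugate `φ⁻¹ S φ` -/
def cj (S : Subgroup G) (φ : G) : Subgroup G := S.comap (MulAut.conj φ).toMonoidHom

/-- `S` is semisparse in the group generated by the sequence `r lo, …, r (hi - 1)` -/
def Semisparse (r : ℕ → G) (lo hi : ℕ) (S : Subgroup G) : Prop :=
  (∀ φ ∈ Γ r (Ico lo hi), ∀ i ∈ Ico lo hi,
    (cj S φ : Set G) ∩ ((Γ r (Ico lo hi \ {i}) : Set G) * {r i}) = ∅) ∧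
  (∀ φ ∈ Γ r (Ico lo hi), ∀ i k j, lo ≤ i → i < k → k < j → j < hi →
    (Γ r (Ioo i hi) : Set G) ∩ ((Γ r (Ico lo j) : Set G) * cj S φ) ⊆
      (Γ r (Ico lo hi \ {k}) : Set G) * ((Γ r (Ioo i hi) : Set G) ∩ Γ r (Ico lo j)) * cj S φ) ∧
  ∀ i, lo ≤ i → i + 1 < hi →
    (Γ r (Ioo i hi) : Set G) ∩ ((Γ r (Ico lo (i + 1)) : Set G) * S) ⊆ S

variable {r : ℕ → G} {n : ℕ} {S : Subgroup G}

lemma mem_cj {φ x : G} : x ∈ cj S φ ↔ φ * x * φ⁻¹ ∈ S := Iff.rfl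

lemma cj_one : cj S 1 = S := by ext x; simp [mem_cj]

lemma mono {I J : Set ℕ} (h : I ⊆ J) : Γ r I ≤ Γ r J :=
  Subgroup.closure_mono (image_mono h)

lemma mo {a b c d : ℕ} {x : G} (hx : x ∈ Γ r (Ico a b)) (h1 : c ≤ a) (h2 : b ≤ d) :
    x ∈ Γ r (Ico c d) := mono (Ico_subset_Ico h1 h2) hx

lemma ioo (i j : ℕ) : Ioo i j = Ico (i + 1) j := rfl

lemma inter (h : StringC r n) {a b c d : ℕ} {x : G} (hb : b ≤ n) (hd : d ≤ b) (ha : c ≤ a)
    (h1 : x ∈ Γ r (Ico a b)) (h2 : x ∈ Γ r (Ico c d)) : x ∈ Γ r (Ico a d) := by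
  have := h.2.2.2 (Ico a b) (Ico_subset_Ico (by omega) hb) (Ico c d)
    (Ico_subset_Ico (by omega) (by omega))
  rw [Ico_inter_Ico, max_eq_left ha, min_eq_right hd] at this
  exact this ▸ ⟨h1, h2⟩

lemma split (h : StringC r n) {lo hi k : ℕ} (hh : hi ≤ n) (hk : k < hi) {g : G}
    (hg : g ∈ Γ r (Ico lo hi \ {k})) :
    ∃ β ∈ Γ r (Ico (k + 1) hi), ∃ α ∈ Γ r (Ico lo k), g = β * α := by
  have hc : ∀ α ∈ Γ r (Ico lo k), ∀ β ∈ Γ r (Ico (k + 1) hi), Commute α β := by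
    intro α hα β hβ
    have aux : ∀ (T : Set G) (y : G), (∀ x ∈ T, Commute x y) →
        ∀ x ∈ Subgroup.closure T, Commute x y := fun T y hT x hx => by
      induction hx using Subgroup.closure_induction with
      | mem x hx => exact hT x hx
      | one => exact Commute.one_left _
      | mul _ _ _ _ h1 h2 => exact h1.mul_left h2
      | inv _ _ h1 => exact h1.inv_left
    refine aux _ _ ?_ α hα
    rintro _ ⟨i, hi', rfl⟩
    refine (aux _ _ ?_ β hβ).symm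
    rintro _ ⟨j, hj, rfl⟩
    symm
    have h1 := h.2.2.1 i j (by have := hi'.2; have := hj.1; omega) (by have := hj.2; omega)
    have h2 := (h.2.1 i (by have := hi'.2; omega)).2
    have h3 := (h.2.1 j (by have := hj.2; omega)).2
    rw [pow_two] at h1 h2 h3
    calc r i * r j = (r i * r j)⁻¹ := eq_inv_of_mul_eq_one_left h1
      _ = r j * r i := by
        rw [mul_inv_rev, inv_eq_of_mul_eq_one_right h2, inv_eq_of_mul_eq_one_right h3]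
  induction hg using Subgroup.closure_induction with
  | mem x hx =>
    obtain ⟨i, ⟨⟨h1, h2⟩, h3⟩, rfl⟩ := hx
    rcases lt_or_gt_of_ne (show i ≠ k from h3) with h4 | h4
    · exact ⟨1, one_mem _, r i, Subgroup.subset_closure ⟨i, ⟨h1, h4⟩, rfl⟩, by simp⟩
    · exact ⟨r i, Subgroup.subset_closure ⟨i, ⟨h4, h2⟩, rfl⟩, 1, one_mem _, by simp⟩
  | one => exact ⟨1, one_mem _, 1, one_mem _, by simp⟩
  | mul x y _ _ hx hy =>
    obtain ⟨β, hβ, α, hα, rfl⟩ := hx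
    obtain ⟨β', hβ', α', hα', rfl⟩ := hy
    refine ⟨β * β', mul_mem hβ hβ', α * α', mul_mem hα hα', ?_⟩
    rw [mul_assoc, ← mul_assoc α, (hc α hα β' hβ').eq]; group
  | inv x _ hx =>
    obtain ⟨β, hβ, α, hα, rfl⟩ := hx
    exact ⟨β⁻¹, inv_mem hβ, α⁻¹, inv_mem hα, by rw [← (hc α hα β hβ).eq, mul_inv_rev]⟩

lemma base {lo hi : ℕ} (hs : ∀ φ, Semisparse r lo hi (cj S φ ⊓ Γ r (Ico lo hi))) {φ a b : G}
    {i : ℕ} (hi1 : lo ≤ i) (hi2 : i < hi) (ha : a ∈ Γ r (Ico i hi)) (hb : b ∈ Γ r (Ico lo i))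
    (h : b⁻¹ * a ∈ cj S φ) : a ∈ cj S φ := by
  rcases hi1.eq_or_lt with rfl | h1
  · have : b = 1 := by simpa [Γ] using hb
    simpa [this] using h
  · obtain ⟨i, rfl⟩ := Nat.exists_eq_add_of_lt h1
    exact ((hs φ).2.2 _ (by omega) hi2 ⟨ha, b, hb, b⁻¹ * a,
      Subgroup.mem_inf.2 ⟨h, mul_mem (inv_mem (mo hb le_rfl hi2.le)) (mo ha hi1 le_rfl)⟩,
      by simp⟩).1

lemma pip (h : StringC r n) {lo hi : ℕ} (hh : hi ≤ n)
    (hs : ∀ φ, Semisparse r lo hi (cj S φ ⊓ Γ r (Ico lo hi))) {j : ℕ} (hj : j ≤ hi) (d : ℕ) :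
    ∀ i, j ≤ i + d → lo ≤ i → ∀ φ a b, a ∈ Γ r (Ico i hi) → b ∈ Γ r (Ico lo j) →
      b⁻¹ * a ∈ cj S φ → ∃ c ∈ Γ r (Ico i j), c⁻¹ * a ∈ cj S φ := by
  rcases hj.eq_or_lt with rfl | hj
  · exact fun i _ _ φ a b ha _ _ => ⟨a, ha, by simp⟩
  have z : ∀ i, j ≤ i → lo ≤ i → ∀ φ a b, a ∈ Γ r (Ico i hi) → b ∈ Γ r (Ico lo j) →
      b⁻¹ * a ∈ cj S φ → ∃ c ∈ Γ r (Ico i j), c⁻¹ * a ∈ cj S φ := by
    intro i h1 h2 φ a b ha hb e
    refine ⟨1, one_mem _, ?_⟩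
    rw [inv_one, one_mul]
    by_cases h3 : i < hi
    · exact base hs h2 h3 ha (mo hb le_rfl h1) e
    · have : a = 1 := by simpa [Γ, Ico_eq_empty h3] using ha
      exact this ▸ one_mem _
  induction d with
  | zero => exact z
  | succ d ih =>
    intro i h1 h2 φ a b ha hb e
    by_cases h0 : j ≤ i
    · exact z i h0 h2 φ a b ha hb e
    rcases h2.eq_or_lt with rfl | h2
    · exact ⟨b, hb, e⟩
    obtain ⟨i, rfl⟩ : ∃ k, i = k + 1 := ⟨i - 1, by omega⟩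
    have h3 := (hs φ).2.1 1 (one_mem _) i (i + 1) j (by omega) (by omega) (by omega) hj
    rw [cj_one] at h3
    obtain ⟨_, ⟨g, hg, c, ⟨hc1, hc2⟩, rfl⟩, s, hs', e2⟩ := h3 (a := a) ⟨ha, b, hb, b⁻¹ * a,
      Subgroup.mem_inf.2 ⟨e, mul_mem (inv_mem (mo hb le_rfl hj.le)) (mo ha h2.le le_rfl)⟩, by simp⟩
    have hc : c ∈ Γ r (Ico (i + 1) j) := inter h hh hj.le h2.le hc1 hc2
    obtain ⟨β, hβ, α, hα, rfl⟩ := split h hh (by omega) hg
    have key : ∀ x, x ∈ cj S (φ * c⁻¹) ↔ c⁻¹ * x * c ∈ cj S φ := fun x => by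
      simp [mem_cj, mul_assoc]
    have e3 : a = β * α * c * s := e2.symm
    have k1 : β⁻¹ * (a * c⁻¹) ∈ cj S (φ * c⁻¹) := by
      refine base hs h2.le (by omega)
        (mul_mem (inv_mem (mo hβ (by omega) le_rfl)) (mul_mem ha (inv_mem hc1))) hα ?_
      rw [key]
      convert (Subgroup.mem_inf.1 hs').1 using 1
      rw [e3]; group
    obtain ⟨c', hc', k2⟩ := ih (i + 1 + 1) (by omega) (by omega) (φ * c⁻¹) β (b * c⁻¹) hβ
      (mul_mem hb (inv_mem hc2)) (by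
        have k3 : (b * c⁻¹)⁻¹ * (a * c⁻¹) ∈ cj S (φ * c⁻¹) := by
          rw [key]; convert e using 1; group
        convert mul_mem k3 (inv_mem k1) using 1; group)
    refine ⟨c' * c, mul_mem (mo hc' (by omega) le_rfl) hc, ?_⟩
    convert (key _).1 (mul_mem k2 k1) using 1; group

theorem result (G : Type) [Group G] (r : ℕ → G) (n : ℕ) (hn : 2 ≤ n) (h : StringC r n)
    (S : Subgroup G)
    (h0 : ∀ φ, Semisparse r 1 n (cj S φ ⊓ Γ r (Ico 1 n)))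
    (h1 : ∀ φ, Semisparse r 0 (n - 1) (cj S φ ⊓ Γ r (Ico 0 (n - 1))))
    (h2 : ∀ φ, (cj S φ : Set G) ∩ ((Γ r (Ico 1 n) : Set G) * Γ r (Ico 0 (n - 1))) =
      ((cj S φ : Set G) ∩ Γ r (Ico 1 n)) * ((cj S φ : Set G) ∩ Γ r (Ico 0 (n - 1)))) :
    Semisparse r 0 n S := by
  have P : ∀ i j, 1 ≤ i → j ≤ n - 1 → ∀ φ a b, a ∈ Γ r (Ico i n) → b ∈ Γ r (Ico 0 j) →
      b⁻¹ * a ∈ cj S φ → ∃ c ∈ Γ r (Ico i j), c⁻¹ * a ∈ cj S φ := by
    intro i j hi hj φ a b ha hb e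
    have ha' := mo ha hi le_rfl
    have hb' := mo hb le_rfl hj
    obtain ⟨s, ⟨hs1, hs2⟩, t, ⟨ht1, ht2⟩, e2⟩ := (Set.ext_iff.1 (h2 φ) (a⁻¹ * b)).1
      ⟨by simpa using inv_mem e, _, inv_mem ha', _, hb', rfl⟩
    have e3 : a * s = b * t⁻¹ := by
      have : s * t = a⁻¹ * b := e2
      rw [eq_mul_inv_iff_mul_eq, mul_assoc, this]; group
    have hc0 : a * s ∈ Γ r (Ico 1 (n - 1)) := inter h le_rfl (by omega) (by omega)
      (mul_mem ha' hs2) (e3 ▸ mul_mem hb' (inv_mem ht2))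
    obtain ⟨a', k1, k2⟩ := pip h le_rfl h0 (j := n - 1) (by omega) n i (by omega) hi φ a _ ha hc0
      (by simpa using hs1)
    obtain ⟨c, k3, k4⟩ := pip h (by omega) h1 hj n i (by omega) (by omega) φ a' b k1 hb
      (by convert mul_mem e (inv_mem k2) using 1; group)
    exact ⟨c, k3, by convert mul_mem k4 k2 using 1; group⟩
  have Q : ∀ i, 1 ≤ i → i ≤ n - 1 → ∀ φ a b, a ∈ Γ r (Ico i n) → b ∈ Γ r (Ico 0 i) →
      b⁻¹ * a ∈ cj S φ → a ∈ cj S φ := by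
    intro i hi hj φ a b ha hb e
    obtain ⟨c, hc, e⟩ := P i i hi hj φ a b ha hb e
    have : c = 1 := by simpa [Γ] using hc
    simpa [this] using e
  refine ⟨fun φ _ i hi => ?_, fun φ _ i k j _ _ _ hj => ?_, fun i _ hi => ?_⟩
  · refine eq_empty_of_forall_notMem ?_
    rintro _ ⟨e, g, hg, _, rfl, rfl⟩
    have hri : ∀ a b, a ≤ i → i < b → r i ∈ Γ r (Ico a b) := fun a b h1 h2 =>
      Subgroup.subset_closure ⟨i, ⟨h1, h2⟩, rfl⟩
    by_cases hl : i = n - 1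
    · have hg' : g ∈ Γ r (Ico 0 i) :=
        mono (I := Ico 0 n \ {i}) (J := Ico 0 i)
          (fun x hx => ⟨hx.1.1, by have := hx.1.2; have : x ≠ i := hx.2; omega⟩) hg
      have k := Q i (by omega) hl.le φ (r i) g⁻¹ (hri _ _ le_rfl hi.2) (inv_mem hg')
        (by simpa using e)
      have := (h0 φ).1 1 (one_mem _) i ⟨by omega, hi.2⟩
      rw [cj_one] at this
      exact (Set.ext_iff.1 this (r i)).1
        ⟨⟨k, hri _ _ (by omega) hi.2⟩, 1, one_mem _, _, rfl, one_mul _⟩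
    · have hi2 : i < n - 1 := by have := hi.2; omega
      obtain ⟨β, hβ, α, hα, rfl⟩ := split h le_rfl hi.2 hg
      have hαi : α * r i ∈ Γ r (Ico 0 (i + 1)) :=
        mul_mem (mo hα le_rfl (by omega)) (hri _ _ (by omega) (by omega))
      have e' : β * α * r i ∈ cj S φ := e
      have k := Q (i + 1) (by omega) hi2 φ β⁻¹ _ (inv_mem hβ) hαi
        (by convert inv_mem e' using 1; group)
      have := (h1 φ).1 1 (one_mem _) i ⟨by omega, hi2⟩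
      rw [cj_one] at this
      exact (Set.ext_iff.1 this (α * r i)).1 ⟨Subgroup.mem_inf.2
        ⟨by convert mul_mem k e' using 1; group, mo hαi le_rfl hi2⟩, α,
        mono (I := Ico 0 i) (J := Ico 0 (n - 1) \ {i})
          (fun x hx => ⟨⟨hx.1, by have := hx.2; omega⟩, hx.2.ne⟩) hα, _, rfl, rfl⟩
  · rintro a ⟨ha, b, hb, s, hs, e⟩
    obtain ⟨c, hc, k⟩ := P (i + 1) j (by omega) (by omega) φ a b ha hb (by simpa [← e] using hs)
    exact ⟨c, ⟨1, one_mem _, c, ⟨mo hc le_rfl hj.le, mo hc (by omega) le_rfl⟩, one_mul _⟩,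
      _, k, by simp⟩
  · rintro a ⟨ha, b, hb, s, hs, e⟩
    have := Q (i + 1) (by omega) (by omega) 1 a b ha hb (by rw [cj_one]; simpa [← e] using hs)
    rwa [cj_one] at this

end Pool.Agent.Results.MP_bc764a_al.Suff
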